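import Pool.Agent.V11277.Heis

/-!
# A group with finite double centralizers which is not sigma-discrete in its semi-Zariski topology

The group consists of the triples `(v, w, c)`, `v` a finitely supported sequence, `w` a sequence and
`c` an element of the field `F₂`, with the product
`(v, w, c) (v', w', c') = (v + v', w + w', c + c' + ∑ v_i w'_i)`. The double centralizer of a finite set
`F` consists of the triples with `(v, w)` in the span of the `(v, w)`-parts of the elements of `F`. On
the uncountable set `v = 0` the semi-Zariski topology is generated by countably many sets and the
complements of finite sets, so its discrete subspaces are countable.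
-/

set_option autoImplicit false

namespace Pool.Agent.Results.MP_9d0418_gt.GroupNotSigmaDiscrete

open Pool.Agent.V11277.SZ

/-- There is a group with finite double centralizers which is not a countable union of discrete
subspaces of its semi-Zariski topology. -/
theorem result : ∃ (G : Type) (_ : Group G), FiniteDoubleCentralizers G ∧
    ¬ SigmaDiscreteSet G Set.univ :=
  ⟨Heis, inferInstance, Heis.fdc, Heis.not_sigmaDiscrete⟩

end Pool.Agent.Results.MP_9d0418_gt.GroupNotSigmaDiscrete
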